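import Mathlib

namespace Pool.Agent.Results.MP_b20271_lc.Counter

/-- `B` refines `A`: every member of `A` is a union of members of `B`. -/
def Refines {W : Type} (B A : Set (Set W)) : Prop := ∀ U ∈ A, ∃ C ⊆ B, U = ⋃₀ C

/-- The partition `A` is tuned in the frame `(W, R)`. -/
def Tuned {W : Type} (R : W → W → Prop) (A : Set (Set W)) : Prop :=
  ∀ U ∈ A, ∀ V ∈ A, (∃ u ∈ U, ∃ v ∈ V, R u v) → ∀ u ∈ U, ∃ v ∈ V, R u v

/-- Every finite partition has a finite tuned refinement. -/
def Tunable {W : Type} (R : W → W → Prop) : Prop :=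
  ∀ A : Set (Set W), Setoid.IsPartition A → A.Finite →
    ∃ B : Set (Set W), Setoid.IsPartition B ∧ B.Finite ∧ Refines B A ∧ Tuned R B

/-- The direct product of two frames. -/
def Prod {W₁ W₂ : Type} (R₁ : W₁ → W₁ → Prop) (R₂ : W₂ → W₂ → Prop) (x y : W₁ × W₂) : Prop :=
  R₁ x.1 y.1 ∧ R₂ x.2 y.2

lemma tun : Tunable (fun x y : ℕ => x ≠ y) := by
  intro A hA hf
  refine ⟨A, hA, hf, fun U hU => ⟨{U}, by simpa using hU, by simp⟩, ?_⟩
  rintro U hU V hV ⟨u, hu, v, hv, huv⟩ w hw
  by_cases h : w = v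
  · subst h
    obtain rfl : U = V := (hA.2 w).unique ⟨hU, hw⟩ ⟨hV, hv⟩
    exact ⟨u, hu, huv.symm⟩
  · exact ⟨v, hv, h⟩

def p (k : ℕ) : ℕ × ℕ := ((k + 1) / 2, k / 2)

def col (z : ℕ × ℕ) : Fin 3 := if z = (0, 0) then 0 else if z.1 = z.2 ∨ z.1 = z.2 + 1 then 1 else 2

theorem result : ∃ (W₁ W₂ : Type) (R₁ : W₁ → W₁ → Prop) (R₂ : W₂ → W₂ → Prop),
    Tunable R₁ ∧ Tunable R₂ ∧ ¬ Tunable (Prod R₁ R₂) := by
  refine ⟨ℕ, ℕ, _, _, tun, tun, fun h => ?_⟩
  obtain ⟨B, hB, hf, hr, ht⟩ := h _ (Setoid.isPartition_classes (Setoid.ker col))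
    (Setoid.finite_classes_ker col)
  have c1 : ∀ U ∈ B, ∀ x ∈ U, ∀ y ∈ U, col y = col x := by
    intro U hU x hx y hy
    obtain ⟨C, hC, e⟩ := hr _ (Setoid.mem_classes (Setoid.ker col) x)
    have hx' : x ∈ ⋃₀ C := e ▸ (Setoid.refl' (Setoid.ker col) x)
    obtain ⟨U', hU', hx''⟩ := hx'
    obtain rfl : U = U' := (hB.2 x).unique ⟨hU, hx⟩ ⟨hC hU', hx''⟩
    have : y ∈ ⋃₀ C := ⟨U, hU', hy⟩
    rw [← e] at this
    exact this
  have key : ∀ k, {p k} ∈ B := by
    intro k
    induction k using Nat.strong_induction_on with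
    | _ k ih =>
      obtain ⟨U, ⟨hU, hk⟩, -⟩ := hB.2 (p k)
      suffices U = {p k} from this ▸ hU
      refine Set.eq_singleton_iff_unique_mem.2 ⟨hk, fun y hy => ?_⟩
      have hc := c1 U hU _ hk y hy
      rcases k with _ | k
      · simp only [col, p] at hc ⊢
        split_ifs at hc <;> simp_all
      · have e1 : col (p (k + 1)) = 1 := by
          simp only [col, p, Prod.mk.injEq]
          rw [if_neg (by omega), if_pos (by omega)]
        obtain ⟨j, rfl⟩ : ∃ j, y = p j := by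
          rw [e1, col] at hc
          refine ⟨y.1 + y.2, ?_⟩
          split_ifs at hc with h1 h2
          · simp at hc
          · ext <;> simp only [p] <;> omega
          · simp at hc
        have h1 : ¬ j ≤ k := fun hj => by
          have := (hB.2 (p j)).unique ⟨hU, hy⟩ ⟨ih j (by omega), rfl⟩
          rw [this] at hk
          simp only [Set.mem_singleton_iff, p, Prod.mk.injEq] at hk
          omega
        have h2 : ¬ k + 2 ≤ j := fun hj => by
          obtain ⟨v, hv, h3⟩ := ht U hU _ (ih k (by omega))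
            ⟨p j, hy, p k, rfl, by simp only [Prod, p]; omega⟩ _ hk
          rw [Set.mem_singleton_iff.1 hv] at h3
          simp only [Prod, p] at h3
          omega
        rw [show j = k + 1 by omega]
  refine Set.infinite_of_injective_forall_mem (f := fun k => ({p k} : Set (ℕ × ℕ))) ?_ key hf
  intro i j hij
  simp only [Set.singleton_eq_singleton_iff, p, Prod.mk.injEq] at hij
  omega

end Pool.Agent.Results.MP_b20271_lc.Counter
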